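import Mathlib

/-!
# Transitive canonical selectors on the space of initial segments of a poset (combinatorial core)

`Low le D` : `D` is an initial segment.  `IsRank le r` says that `r` behaves like the
Cantor-Bendixson rank on the (scattered) space of initial segments.
-/

open Set Filter

universe u v

namespace Pool.Agent.Helper718.CWG

/-! ### Natural (Hessenberg) sum of ordinals -/

/-- Natural sum. -/
noncomputable def nad (a b : Ordinal.{v}) : Ordinal.{v} :=
  max (⨆ x : Set.Iio a, Order.succ (nad x.1 b)) (⨆ x : Set.Iio b, Order.succ (nad a x.1))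
termination_by (a, b)
decreasing_by all_goals cases x; decreasing_tactic

theorem lt_nad_iff {a b c : Ordinal.{v}} :
    a < nad b c ↔ (∃ b' < b, a ≤ nad b' c) ∨ ∃ c' < c, a ≤ nad b c' := by
  rw [nad]
  simp [Ordinal.lt_iSup_iff]

theorem nad_le_iff {a b c : Ordinal.{v}} :
    nad b c ≤ a ↔ (∀ b' < b, nad b' c < a) ∧ ∀ c' < c, nad b c' < a := by
  rw [← not_lt, lt_nad_iff]
  simp

theorem nad_lt_nad_left {b c : Ordinal.{v}} (h : b < c) (a : Ordinal.{v}) :
    nad a b < nad a c :=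
  lt_nad_iff.2 (Or.inr ⟨b, h, le_rfl⟩)

theorem nad_lt_nad_right {b c : Ordinal.{v}} (h : b < c) (a : Ordinal.{v}) :
    nad b a < nad c a :=
  lt_nad_iff.2 (Or.inl ⟨b, h, le_rfl⟩)

theorem nad_le_nad_left {b c : Ordinal.{v}} (h : b ≤ c) (a : Ordinal.{v}) :
    nad a b ≤ nad a c := by
  rcases h.lt_or_eq with h | h
  · exact (nad_lt_nad_left h a).le
  · rw [h]

theorem nad_le_nad_right {b c : Ordinal.{v}} (h : b ≤ c) (a : Ordinal.{v}) :
    nad b a ≤ nad c a := by
  rcases h.lt_or_eq with h | h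
  · exact (nad_lt_nad_right h a).le
  · rw [h]

/-! ### Initial segments and rank functions -/

section
variable {P : Type u} (le : P → P → Prop)

/-- Initial segments of the relation `le`. -/
def Low (D : Set P) : Prop := ∀ ⦃x y⦄, le x y → y ∈ D → x ∈ D

variable {le}

theorem Low.union {D E : Set P} (hD : Low le D) (hE : Low le E) : Low le (D ∪ E) := by
  intro x y h hy
  rcases hy with hy | hy
  · exact Or.inl (hD h hy)
  · exact Or.inr (hE h hy)

theorem Low.inter {D E : Set P} (hD : Low le D) (hE : Low le E) : Low le (D ∩ E) := by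
  intro x y h hy
  exact ⟨hD h hy.1, hE h hy.2⟩

theorem Low.sUnion {c : Set (Set P)} (hc : ∀ D ∈ c, Low le D) : Low le (⋃₀ c) := by
  intro x y h hy
  obtain ⟨D, hD, hy⟩ := hy
  exact ⟨D, hD, hc D hD h hy⟩

theorem Low.compl {D : Set P} (hD : Low le D) : Low (flip le) Dᶜ := by
  intro x y h hy hx
  exact hy (hD h hx)

theorem Low.of_compl {D : Set P} (hD : Low (flip le) Dᶜ) : Low le D := by
  intro x y h hy
  by_contra hx
  exact hD (x := y) (y := x) h hx hy

variable (le) in
/-- `r` is a Cantor-Bendixson type rank on the space of initial segments. -/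
structure IsRank (r : Set P → Ordinal.{v}) : Prop where
  iso : ∀ D, Low le D → ∃ S : Finset P, ∀ G, Low le G → (∀ x ∈ S, (x ∈ G ↔ x ∈ D)) →
    G ≠ D → r G < r D
  lim : ∀ D, Low le D → ∀ β < r D, ∀ S : Finset P, ∃ G, Low le G ∧
    (∀ x ∈ S, (x ∈ G ↔ x ∈ D)) ∧ G ≠ D ∧ β ≤ r G

theorem IsRank.dual {r : Set P → Ordinal.{v}} (hr : IsRank le r) :
    IsRank (flip le) (fun D => r Dᶜ) := by
  constructor
  · intro D hD
    have hD' : Low le Dᶜ := Low.of_compl (by rwa [compl_compl])
    obtain ⟨S, hS⟩ := hr.iso Dᶜ hD'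
    refine ⟨S, fun G hG h1 h2 => hS Gᶜ (Low.of_compl (by rwa [compl_compl])) ?_ ?_⟩
    · intro x hx
      have := h1 x hx
      simp only [mem_compl_iff, this]
    · intro h; exact h2 (compl_injective h)
  · intro D hD β hβ S
    have hD' : Low le Dᶜ := Low.of_compl (by rwa [compl_compl])
    obtain ⟨G, hG, h1, h2, h3⟩ := hr.lim Dᶜ hD' β hβ S
    refine ⟨Gᶜ, hG.compl, ?_, ?_, ?_⟩
    · intro x hx
      have := h1 x hx
      simp only [mem_compl_iff] at this ⊢
      tauto
    · intro h; exact h2 (by rw [← h, compl_compl])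
    · simpa using h3

variable {r : Set P → Ordinal.{v}}

theorem IsRank.sm (hr : IsRank le r) (o : Ordinal.{v}) : ∀ E F : Set P, Low le E → Low le F →
    nad (r E) (r F) = o → nad (r E) (r F) ≤ nad (r (E ∪ F)) (r (E ∩ F)) := by
  classical
  induction o using WellFoundedLT.induction with
  | ind o ih =>
    intro E F hE hF ho
    obtain ⟨S1, hS1⟩ := hr.iso _ (hE.union hF)
    obtain ⟨S2, hS2⟩ := hr.iso _ (hE.inter hF)
    obtain ⟨S3, hS3⟩ := hr.iso _ hE
    obtain ⟨S4, hS4⟩ := hr.iso _ hF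
    rw [nad_le_iff]
    constructor
    · intro a ha
      obtain ⟨G, hG, hGS, hne, hle⟩ := hr.lim E hE a ha (S1 ∪ S2 ∪ S3)
      have hlt : r G < r E := hS3 G hG (fun x hx => hGS x (by simp [hx])) hne
      have h1 := ih (nad (r G) (r F)) (by rw [← ho]; exact nad_lt_nad_right hlt _) G F hG hF rfl
      have hA : G ∪ F = E ∪ F ∨ r (G ∪ F) < r (E ∪ F) := by
        by_cases h : G ∪ F = E ∪ F
        · exact Or.inl h
        · refine Or.inr (hS1 _ (hG.union hF) (fun x hx => ?_) h)
          have := hGS x (by simp [hx])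
          simp only [mem_union, this]
      have hB : G ∩ F = E ∩ F ∨ r (G ∩ F) < r (E ∩ F) := by
        by_cases h : G ∩ F = E ∩ F
        · exact Or.inl h
        · refine Or.inr (hS2 _ (hG.inter hF) (fun x hx => ?_) h)
          have := hGS x (by simp [hx])
          simp only [mem_inter_iff, this]
      have h2 : nad (r (G ∪ F)) (r (G ∩ F)) < nad (r (E ∪ F)) (r (E ∩ F)) := by
        rcases hA with hA | hA
        · rcases hB with hB | hB
          · exfalso
            apply hne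
            ext x
            have e1 := Set.ext_iff.1 hA x
            have e2 := Set.ext_iff.1 hB x
            simp only [mem_union, mem_inter_iff] at e1 e2
            tauto
          · rw [hA]; exact nad_lt_nad_left hB _
        · refine lt_of_lt_of_le (nad_lt_nad_right hA _) ?_
          rcases hB with hB | hB
          · rw [hB]
          · exact (nad_lt_nad_left hB _).le
      exact lt_of_le_of_lt ((nad_le_nad_right hle _).trans h1) h2
    · intro a ha
      obtain ⟨G, hG, hGS, hne, hle⟩ := hr.lim F hF a ha (S1 ∪ S2 ∪ S4)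
      have hlt : r G < r F := hS4 G hG (fun x hx => hGS x (by simp [hx])) hne
      have h1 := ih (nad (r E) (r G)) (by rw [← ho]; exact nad_lt_nad_left hlt _) E G hE hG rfl
      have hA : E ∪ G = E ∪ F ∨ r (E ∪ G) < r (E ∪ F) := by
        by_cases h : E ∪ G = E ∪ F
        · exact Or.inl h
        · refine Or.inr (hS1 _ (hE.union hG) (fun x hx => ?_) h)
          have := hGS x (by simp [hx])
          simp only [mem_union, this]
      have hB : E ∩ G = E ∩ F ∨ r (E ∩ G) < r (E ∩ F) := by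
        by_cases h : E ∩ G = E ∩ F
        · exact Or.inl h
        · refine Or.inr (hS2 _ (hE.inter hG) (fun x hx => ?_) h)
          have := hGS x (by simp [hx])
          simp only [mem_inter_iff, this]
      have h2 : nad (r (E ∪ G)) (r (E ∩ G)) < nad (r (E ∪ F)) (r (E ∩ F)) := by
        rcases hA with hA | hA
        · rcases hB with hB | hB
          · exfalso
            apply hne
            ext x
            have e1 := Set.ext_iff.1 hA x
            have e2 := Set.ext_iff.1 hB x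
            simp only [mem_union, mem_inter_iff] at e1 e2
            tauto
          · rw [hA]; exact nad_lt_nad_left hB _
        · refine lt_of_lt_of_le (nad_lt_nad_right hA _) ?_
          rcases hB with hB | hB
          · rw [hB]
          · exact (nad_lt_nad_left hB _).le
      exact lt_of_le_of_lt ((nad_le_nad_left hle _).trans h1) h2

/-- The key inequality: if the rank drops from `X` to `X ∪ Y`, it is larger at `X ∩ Y` than
at `Y`. -/
theorem IsRank.key (hr : IsRank le r) {X Y : Set P} (hX : Low le X) (hY : Low le Y)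
    (h : r (X ∪ Y) < r X) : r Y < r (X ∩ Y) := by
  by_contra hc
  rw [not_lt] at hc
  have h1 := hr.sm _ X Y hX hY rfl
  have h2 : nad (r (X ∪ Y)) (r (X ∩ Y)) < nad (r X) (r Y) :=
    lt_of_lt_of_le (nad_lt_nad_right h _) (nad_le_nad_left hc _)
  exact absurd h1 (not_le.2 h2)

/-! ### Convergence -/

/-- Pointwise convergence of sets along a filter. -/
def Conv {ι : Type*} (l : Filter ι) (G : ι → Set P) (D : Set P) : Prop :=
  ∀ x, ∀ᶠ n in l, (x ∈ G n ↔ x ∈ D)

theorem Conv.union {ι : Type*} {l : Filter ι} {G G' : ι → Set P} {D D' : Set P}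
    (h : Conv l G D) (h' : Conv l G' D') : Conv l (fun n => G n ∪ G' n) (D ∪ D') := by
  intro x
  filter_upwards [h x, h' x] with n h1 h2
  simp [h1, h2]

theorem Conv.inter {ι : Type*} {l : Filter ι} {G G' : ι → Set P} {D D' : Set P}
    (h : Conv l G D) (h' : Conv l G' D') : Conv l (fun n => G n ∩ G' n) (D ∩ D') := by
  intro x
  filter_upwards [h x, h' x] with n h1 h2
  simp [h1, h2]

theorem conv_const {ι : Type*} {l : Filter ι} (D : Set P) : Conv l (fun _ => D) D := by
  intro x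
  exact Eventually.of_forall fun _ => Iff.rfl

theorem Conv.finset {ι : Type*} {l : Filter ι} {G : ι → Set P} {D : Set P}
    (h : Conv l G D) (S : Finset P) : ∀ᶠ n in l, ∀ x ∈ S, (x ∈ G n ↔ x ∈ D) := by
  rw [Filter.eventually_all_finset]
  exact fun x _ => h x

theorem exists_conv {ι : Type*} (U : Ultrafilter ι) (G : ι → Set P) (hG : ∀ n, Low le (G n)) :
    ∃ D, Low le D ∧ Conv (U : Filter ι) G D := by
  refine ⟨{x | ∀ᶠ n in (U : Filter ι), x ∈ G n}, ?_, ?_⟩
  · intro x y hxy hy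
    have hy' : ∀ᶠ n in (U : Filter ι), y ∈ G n := hy
    exact hy'.mono fun n hn => hG n hxy hn
  · intro x
    by_cases h : ∀ᶠ n in (U : Filter ι), x ∈ G n
    · exact h.mono fun n hn => ⟨fun _ => h, fun _ => hn⟩
    · have h' : ∀ᶠ n in (U : Filter ι), x ∉ G n := Ultrafilter.eventually_not.2 h
      exact h'.mono fun n hn => ⟨fun h1 => absurd h1 hn, fun h1 => absurd h1 h⟩

theorem IsRank.conv_le {ι : Type*} {l : Filter ι} (hr : IsRank le r) {G : ι → Set P} {D : Set P}
    (hG : ∀ n, Low le (G n)) (hD : Low le D) (h : Conv l G D) : ∀ᶠ n in l, r (G n) ≤ r D := by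
  obtain ⟨S, hS⟩ := hr.iso D hD
  filter_upwards [h.finset S] with n hn
  by_cases e : G n = D
  · rw [e]
  · exact (hS _ (hG n) hn e).le

/-! ### Weak records -/

variable (le) (r) in
/-- `E` is a weak lower record of `D`. -/
def LW (D E : Set P) : Prop :=
  Low le E ∧ E ⊂ D ∧ ∀ F, Low le F → E ⊂ F → F ⊂ D → r F < r E

/-- `x` is the first element of `X` in the fixed well-ordering of `P`. -/
def Fst (x : P) (X : Set P) : Prop := x ∈ X ∧ ∀ y ∈ X, ¬ WellOrderingRel y x

theorem exists_fst {X : Set P} (h : X.Nonempty) : ∃ x, Fst x X := by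
  have hw : WellFounded (WellOrderingRel (α := P)) := IsWellFounded.wf
  exact ⟨hw.min X h, hw.min_mem X h, fun y hy => hw.not_lt_min X hy⟩

theorem Fst.unique {x y : P} {X : Set P} (hx : Fst x X) (hy : Fst y X) : x = y := by
  rcases trichotomous_of (WellOrderingRel (α := P)) x y with h | h | h
  · exact absurd h (hy.2 x hx.1)
  · exact h
  · exact absurd h (hx.2 y hy.1)

theorem Fst.mono {x : P} {X Y : Set P} (hx : Fst x X) (hY : Y ⊆ X) (h : x ∈ Y) : Fst x Y :=
  ⟨h, fun y hy => hx.2 y (hY hy)⟩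

variable (le) (r) in
/-- The lower basic set of `D`. -/
def AA (D : Set P) : Set P := {x | ∃ E, LW le r D E ∧ Fst x (D \ E)}

variable (le) (r) in
/-- The upper basic set of `D` (dual of `AA`). -/
def BB (D : Set P) : Set P := AA (flip le) (fun X => r Xᶜ) Dᶜ

theorem AA_subset {D : Set P} : AA le r D ⊆ D := by
  rintro x ⟨E, _, hx⟩
  exact hx.1.1

theorem BB_not_mem {D : Set P} {x : P} (hx : x ∈ BB le r D) : x ∉ D :=
  AA_subset hx

theorem LW.restrict (hr : IsRank le r) {D E G : Set P} (h : LW le r D E) (hG : Low le G)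
    (hGD : G ⊆ D) (hGE : ¬ G ⊆ E) : LW le r G (E ∩ G) := by
  obtain ⟨hE, hED, hrec⟩ := h
  refine ⟨hE.inter hG, ⟨inter_subset_right, fun h => hGE fun x hx => (h hx).1⟩, ?_⟩
  intro F hF hEF hFG
  have h1 : E ⊂ E ∪ F := by
    refine ⟨subset_union_left, fun h => hEF.2 ?_⟩
    intro x hx
    exact ⟨h (Or.inr hx), hFG.1 hx⟩
  have h2 : E ∪ F ⊂ D := by
    refine ⟨union_subset hED.1 (hFG.1.trans hGD), fun h => hFG.2 ?_⟩
    intro x hx
    rcases h (hGD hx) with h3 | h3
    · exact hEF.1 ⟨h3, hx⟩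
    · exact h3
  have h3 := hr.key hE hF (hrec _ (hE.union hF) h1 h2)
  have h4 : E ∩ F = E ∩ G := by
    apply Subset.antisymm
    · exact inter_subset_inter_right _ hFG.1
    · exact fun x hx => ⟨hx.1, hEF.1 hx⟩
  rwa [h4] at h3

theorem AA_restrict (hr : IsRank le r) {D G : Set P} (hG : Low le G) (hGD : G ⊆ D) {x : P}
    (hx : x ∈ AA le r D) (hxG : x ∈ G) : x ∈ AA le r G := by
  obtain ⟨E, hE, hx⟩ := hx
  refine ⟨E ∩ G, hE.restrict hr hG hGD fun h => hx.1.2 (h hxG), ?_⟩
  refine hx.mono ?_ ⟨hxG, fun h => hx.1.2 h.1⟩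
  rintro y ⟨hy1, hy2⟩
  exact ⟨hGD hy1, fun h => hy2 ⟨h, hy1⟩⟩

theorem BB_restrict (hr : IsRank le r) {D G : Set P} (hG : Low le G) (hGD : D ⊆ G) {x : P}
    (hx : x ∈ BB le r D) (hxG : x ∉ G) : x ∈ BB le r G :=
  AA_restrict hr.dual hG.compl (compl_subset_compl.2 hGD) hx hxG

/-! ### Finite antichain condition -/

variable (le) in
/-- Every sequence has two distinct comparable terms. -/
def FAC : Prop := ∀ f : ℕ → P, ∃ i j, i < j ∧ (le (f i) (f j) ∨ le (f j) (f i))

theorem FAC.dual (h : FAC le) : FAC (flip le) := by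
  intro f
  obtain ⟨i, j, hij, h1⟩ := h f
  exact ⟨i, j, hij, h1.symm⟩

theorem FAC.ultra (h : FAC le) {ι : Type*} (U : Ultrafilter ι) (d : ι → P) :
    ¬ ∀ᶠ n in (U : Filter ι), ∀ᶠ m in (U : Filter ι), ¬ le (d n) (d m) ∧ ¬ le (d m) (d n) := by
  classical
  intro hc
  obtain ⟨f, hf1, hf2⟩ := exists_seq_of_forall_finset_exists
    (fun n => ∀ᶠ m in (U : Filter ι), ¬ le (d n) (d m) ∧ ¬ le (d m) (d n))
    (fun n m => ¬ le (d n) (d m) ∧ ¬ le (d m) (d n)) (by
      intro s hs
      have h1 : ∀ᶠ y in (U : Filter ι), ∀ x ∈ s, ¬ le (d x) (d y) ∧ ¬ le (d y) (d x) := by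
        rw [Filter.eventually_all_finset]
        exact fun x hx => hs x hx
      obtain ⟨y, hy1, hy2⟩ := (hc.and h1).exists
      exact ⟨y, hy1, hy2⟩)
  obtain ⟨i, j, hij, h1⟩ := h (fun n => d (f n))
  have := hf2 i j hij
  rcases h1 with h1 | h1
  · exact this.1 h1
  · exact this.2 h1

/-- Main finiteness lemma: `AA D` is finite. -/
theorem AA_finite (hr : IsRank le r) (hfac : FAC le) {D : Set P} :
    (AA le r D).Finite := by
  classical
  by_contra hinf
  have hinf : (AA le r D).Infinite := hinf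
  let x : ℕ → P := fun n => (hinf.natEmbedding _ n : P)
  have hxinj : Function.Injective x := fun a b h => (hinf.natEmbedding _).injective (Subtype.ext h)
  have hxA : ∀ n, x n ∈ AA le r D := fun n => (hinf.natEmbedding _ n).2
  choose E hE hx using hxA
  let U : Ultrafilter ℕ := Ultrafilter.of atTop
  have hU : (U : Filter ℕ) ≤ atTop := Ultrafilter.of_le atTop
  have hne : ∀ p : P, ∀ᶠ n in (U : Filter ℕ), x n ≠ p := by
    intro p
    by_cases h : ∃ m, x m = p
    · obtain ⟨m, rfl⟩ := h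
      refine hU ?_
      filter_upwards [eventually_gt_atTop m] with n hn h
      exact absurd (hxinj h) (Nat.ne_of_gt hn)
    · exact Eventually.of_forall fun n hn => h ⟨n, hn⟩
  obtain ⟨E₀, hE₀, hconv⟩ := exists_conv (le := le) U E fun n => (hE n).1
  have hE₀D : E₀ ⊆ D := by
    intro p hp
    obtain ⟨n, hn⟩ := (hconv p).exists
    exact (hE n).2.1.1 (hn.2 hp)
  by_cases hcase : E₀ = D
  · -- the records converge to `D`
    subst hcase
    -- for fixed `n`, eventually `E n ∪ E m = D` or `r (E m) < r (E n)`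
    have h1 : ∀ n, ∀ᶠ m in (U : Filter ℕ), E n ∪ E m = E₀ ∨ r (E m) < r (E n) := by
      intro n
      have hc : Conv (U : Filter ℕ) (fun m => E n ∩ E m) (E n ∩ E₀) :=
        (conv_const (E n)).inter hconv
      have hc2 : E n ∩ E₀ = E n := inter_eq_left.2 (hE n).2.1.1
      rw [hc2] at hc
      have h2 := hr.conv_le (fun m => (hE n).1.inter (hE m).1) (hE n).1 hc
      obtain ⟨d, hd1, hd2⟩ := Set.not_subset.1 (hE n).2.1.2
      filter_upwards [h2, hconv d] with m h3 h4
      by_contra hcon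
      rw [not_or, not_lt] at hcon
      have h5 : E n ⊂ E n ∪ E m := ⟨subset_union_left, fun h => hd2 (h (Or.inr (h4.2 hd1)))⟩
      have h6 : E n ∪ E m ⊂ E₀ :=
        (union_subset (hE n).2.1.1 (hE m).2.1.1).ssubset_of_ne hcon.1
      have h7 := hr.key (hE n).1 (hE m).1 ((hE n).2.2 _ ((hE n).1.union (hE m).1) h5 h6)
      exact absurd (h7.trans_le h3) (not_lt.2 hcon.2)
    -- for almost all `n`, `r (E n) ≤ r (E m)` for almost all `m`
    have h2 : ∀ᶠ n in (U : Filter ℕ), ∀ᶠ m in (U : Filter ℕ), r (E n) ≤ r (E m) := by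
      by_contra hcon
      have hcon : ∀ᶠ n in (U : Filter ℕ), ∀ᶠ m in (U : Filter ℕ), r (E m) < r (E n) := by
        have := Ultrafilter.eventually_not.2 hcon
        refine this.mono fun n hn => ?_
        have := Ultrafilter.eventually_not.2 hn
        exact this.mono fun m hm => not_le.1 hm
      let T : Set Ordinal := {o | ∃ n, r (E n) = o ∧ ∀ᶠ m in (U : Filter ℕ), r (E m) < r (E n)}
      have hT : T.Nonempty := by
        obtain ⟨n, hn⟩ := hcon.exists
        exact ⟨_, n, rfl, hn⟩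
      have hw : WellFounded ((· < ·) : Ordinal.{v} → Ordinal.{v} → Prop) := wellFounded_lt
      obtain ⟨n, hn1, hn2⟩ := hw.min_mem T hT
      obtain ⟨m, hm1, hm2⟩ := (hcon.and hn2).exists
      exact hw.not_lt_min T ⟨m, rfl, hm1⟩ (hn1 ▸ hm2)
    have hd : ∀ n, ∃ d, d ∈ E₀ ∧ d ∉ E n := fun n => Set.not_subset.1 (hE n).2.1.2
    choose d hd1 hd2 using hd
    refine hfac.ultra U d ?_
    filter_upwards [h2] with n hn
    filter_upwards [hn, h1 n, hconv (d n)] with m h3 h4 h5
    have h6 : E n ∪ E m = E₀ := by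
      rcases h4 with h4 | h4
      · exact h4
      · exact absurd h3 (not_le.2 h4)
    have h7 : d m ∈ E n := by
      have : d m ∈ E n ∪ E m := by rw [h6]; exact hd1 m
      exact this.resolve_right (hd2 m)
    have h8 : d n ∈ E m := h5.2 (hd1 n)
    exact ⟨fun h => hd2 n ((hE n).1 h h7), fun h => hd2 m ((hE m).1 h h8)⟩
  · obtain ⟨p, hp⟩ := exists_fst (X := D \ E₀) (by
      rw [Set.nonempty_iff_ne_empty, Ne, Set.sdiff_eq_empty]
      exact fun h => hcase (hE₀D.antisymm h))
    have hc : Conv (U : Filter ℕ) (fun n => E n ∩ E₀) (E₀ ∩ E₀) := hconv.inter (conv_const E₀)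
    rw [inter_self] at hc
    have h2 := hr.conv_le (fun m => (hE m).1.inter hE₀) hE₀ hc
    obtain ⟨n, h3, h4, h5⟩ := (h2.and ((hne p).and (hconv p))).exists
    have hpn : p ∉ E n := fun h => hp.1.2 (h5.1 h)
    have h6 : E₀ ⊆ E n := by
      by_contra hcon
      have h7 : E n ⊂ E n ∪ E₀ := ⟨subset_union_left, fun h => hcon fun q hq => h (Or.inr hq)⟩
      have h8 : E n ∪ E₀ ⊂ D := by
        refine ⟨union_subset (hE n).2.1.1 hE₀D, fun h => ?_⟩
        rcases h hp.1.1 with h9 | h9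
        · exact hpn h9
        · exact hp.1.2 h9
      have h9 := hr.key (hE n).1 hE₀ ((hE n).2.2 _ ((hE n).1.union hE₀) h7 h8)
      exact absurd h3 (not_le.2 h9)
    apply h4
    have h7 : Fst p (D \ E n) := hp.mono (Set.sdiff_subset_sdiff_right h6) ⟨hp.1.1, hpn⟩
    exact (hx n).unique h7

theorem BB_finite (hr : IsRank le r) (hfac : FAC le) {D : Set P} :
    (BB le r D).Finite :=
  AA_finite hr.dual hfac.dual

/-! ### The first selector -/

theorem exists_record (hr : IsRank le r) {D X : Set P} (hD : Low le D) (hX : Low le X)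
    (hXD : X ⊂ D) (h : r D ≤ r X) : ∃ E, LW le r D E ∧ X ⊆ E := by
  classical
  obtain ⟨E, hXE, hmax⟩ := zorn_subset_nonempty {E | Low le E ∧ E ⊂ D ∧ r X ≤ r E} (by
    intro c hc hchain hcne
    refine ⟨⋃₀ c, ?_, fun s hs => subset_sUnion_of_mem hs⟩
    have hlow : Low le (⋃₀ c) := Low.sUnion fun F hF => (hc hF).1
    have hsub : ⋃₀ c ⊆ D := sUnion_subset fun F hF => (hc hF).2.1.1
    -- some member of the chain agrees with the union on a given finite set
    have hagree : ∀ S : Finset P, ∃ F ∈ c, ∀ x ∈ S, (x ∈ F ↔ x ∈ ⋃₀ c) := by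
      intro S
      have : ∃ F ∈ c, ∀ x ∈ S, x ∈ ⋃₀ c → x ∈ F := by
        induction S using Finset.induction_on with
        | empty =>
          obtain ⟨F, hF⟩ := hcne
          exact ⟨F, hF, by simp⟩
        | insert a S _ ih =>
          obtain ⟨F, hF, h1⟩ := ih
          by_cases ha : a ∈ ⋃₀ c
          · obtain ⟨F', hF', h2⟩ := ha
            rcases hchain.total hF hF' with h3 | h3
            · refine ⟨F', hF', fun x hx hx' => ?_⟩
              rcases Finset.mem_insert.1 hx with rfl | hx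
              · exact h2
              · exact h3 (h1 x hx hx')
            · refine ⟨F, hF, fun x hx hx' => ?_⟩
              rcases Finset.mem_insert.1 hx with rfl | hx
              · exact h3 h2
              · exact h1 x hx hx'
          · refine ⟨F, hF, fun x hx hx' => ?_⟩
            rcases Finset.mem_insert.1 hx with rfl | hx
            · exact absurd hx' ha
            · exact h1 x hx hx'
      obtain ⟨F, hF, h1⟩ := this
      exact ⟨F, hF, fun x hx => ⟨fun h2 => ⟨F, hF, h2⟩, h1 x hx⟩⟩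
    obtain ⟨S, hS⟩ := hr.iso _ hlow
    obtain ⟨F, hF, hFS⟩ := hagree S
    have hFr := (hc hF).2.2
    have hne : ⋃₀ c ≠ D := by
      intro he
      have h1 : F ≠ ⋃₀ c := fun h2 => (hc hF).2.1.2 (by rw [h2, he])
      have h2 := hS F (hc hF).1 hFS h1
      rw [he] at h2
      exact absurd (h.trans hFr) (not_le.2 h2)
    refine ⟨hlow, hsub.ssubset_of_ne hne, ?_⟩
    by_cases h1 : F = ⋃₀ c
    · rw [← h1]; exact hFr
    · exact hFr.trans (hS F (hc hF).1 hFS h1).le) X ⟨hX, hXD, le_rfl⟩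
  have hEmem := hmax.prop
  refine ⟨E, ⟨hEmem.1, hEmem.2.1, ?_⟩, hXE⟩
  intro F hF hEF hFD
  by_contra hcon
  rw [not_lt] at hcon
  exact hEF.2 (hmax.le_of_ge ⟨hF, hFD, hEmem.2.2.trans hcon⟩ hEF.1)

variable (le) (r) in
/-- `G` lies in the basic neighbourhood of `D`. -/
def InU (D G : Set P) : Prop := (∀ x ∈ AA le r D, x ∈ G) ∧ ∀ x ∈ BB le r D, x ∉ G

theorem inter_lt (hr : IsRank le r) {D G : Set P} (hD : Low le D) (hG : Low le G)
    (hA : ∀ x ∈ AA le r D, x ∈ G) (h : ¬ D ⊆ G) : r (G ∩ D) < r D := by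
  by_contra hcon
  rw [not_lt] at hcon
  obtain ⟨E, hE, hsub⟩ := exists_record hr hD (hG.inter hD)
    ⟨inter_subset_right, fun h1 => h fun x hx => (h1 hx).1⟩ hcon
  obtain ⟨x, hx⟩ := exists_fst (X := D \ E) (by
    rw [Set.nonempty_iff_ne_empty, Ne, Set.sdiff_eq_empty]
    exact hE.2.1.2)
  have hxG := hA x ⟨E, hE, hx⟩
  exact hx.1.2 (hsub ⟨hxG, hx.1.1⟩)

theorem union_lt (hr : IsRank le r) {D G : Set P} (hD : Low le D) (hG : Low le G)
    (hB : ∀ x ∈ BB le r D, x ∉ G) (h : ¬ G ⊆ D) : r (G ∪ D) < r D := by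
  have := inter_lt hr.dual hD.compl hG.compl hB (fun h1 => h (compl_subset_compl.1 h1))
  simpa [Set.compl_inter] using this

theorem InU.lt (hr : IsRank le r) {D G : Set P} (hD : Low le D) (hG : Low le G)
    (h : InU le r D G) (hne : G ≠ D) : r G < r D := by
  by_cases h1 : D ⊆ G
  · have h2 : ¬ G ⊆ D := fun h3 => hne (h3.antisymm h1)
    have h3 := union_lt hr hD hG h.2 h2
    rwa [union_eq_left.2 h1] at h3
  · have h2 := inter_lt hr hD hG h.1 h1
    by_cases h3 : G ⊆ D
    · rwa [inter_eq_left.2 h3] at h2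
    · have h4 := union_lt hr hD hG h.2 h3
      rw [union_comm] at h4
      have h5 := hr.key hD hG h4
      rw [inter_comm] at h5
      exact h5.trans h2

/-! ### The transitive selector -/

variable (le) (r) in
/-- One-step closure of `AA`. -/
def AH (G : Set P) : Set P := {x | ∃ D, Low le D ∧ D ⊆ G ∧ InU le r D G ∧ x ∈ AA le r D}

variable (le) (r) in
/-- One-step closure of `BB`. -/
def BH (G : Set P) : Set P := {x | ∃ D, Low le D ∧ G ⊆ D ∧ InU le r D G ∧ x ∈ BB le r D}

theorem InU_self (D : Set P) : InU le r D D :=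
  ⟨fun _ hx => AA_subset hx, fun _ hx => BB_not_mem hx⟩

theorem AH_subset {G : Set P} : AH le r G ⊆ G := by
  rintro x ⟨D, _, hDG, _, hx⟩
  exact hDG (AA_subset hx)

theorem BH_not_mem {G : Set P} {x : P} (hx : x ∈ BH le r G) : x ∉ G := by
  obtain ⟨D, _, hDG, _, hx⟩ := hx
  exact fun h => BB_not_mem hx (hDG h)

theorem AA_subset_AH {G : Set P} (hG : Low le G) : AA le r G ⊆ AH le r G :=
  fun _ hx => ⟨G, hG, Subset.rfl, InU_self G, hx⟩

theorem BB_subset_BH {G : Set P} (hG : Low le G) : BB le r G ⊆ BH le r G :=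
  fun _ hx => ⟨G, hG, Subset.rfl, InU_self G, hx⟩

theorem InU_dual {D G : Set P} :
    InU (flip le) (fun X => r Xᶜ) Dᶜ Gᶜ ↔ InU le r D G := by
  unfold InU BB
  simp only [compl_compl, mem_compl_iff, not_not]
  constructor
  · rintro ⟨h1, h2⟩
    exact ⟨h2, h1⟩
  · rintro ⟨h1, h2⟩
    exact ⟨h2, h1⟩

theorem BH_eq_dual {G : Set P} : BH le r G = AH (flip le) (fun X => r Xᶜ) Gᶜ := by
  ext x
  constructor
  · rintro ⟨D, hD, hGD, hU, hx⟩
    exact ⟨Dᶜ, hD.compl, compl_subset_compl.2 hGD, InU_dual.2 hU, hx⟩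
  · rintro ⟨D, hD, hGD, hU, hx⟩
    refine ⟨Dᶜ, Low.of_compl (by rwa [compl_compl]), ?_, ?_, ?_⟩
    · rw [← compl_subset_compl, compl_compl]; exact hGD
    · rw [← InU_dual, compl_compl]; exact hU
    · unfold BB; rw [compl_compl]; exact hx

theorem AH_trans (hr : IsRank le r) {D G : Set P} (hD : Low le D) (hG : Low le G)
    (hA : ∀ x ∈ AH le r D, x ∈ G) (hB : ∀ x ∈ BH le r D, x ∉ G) : AH le r D ⊆ AH le r G := by
  rintro x ⟨D₁, hD₁, hD₁D, hU, hx⟩
  have hAG : ∀ y ∈ AA le r D₁, y ∈ G := fun y hy => hA y ⟨D₁, hD₁, hD₁D, hU, hy⟩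
  have hBG : ∀ y ∈ BB le r D₁, y ∉ G := fun y hy =>
    hB y (BB_subset_BH hD (BB_restrict hr hD hD₁D hy (hU.2 y hy)))
  refine ⟨D₁ ∩ G, hD₁.inter hG, inter_subset_right, ⟨?_, ?_⟩, ?_⟩
  · intro y hy
    exact (AA_subset hy).2
  · intro y hy hyG
    have hy1 : y ∉ D₁ := fun h => BB_not_mem hy ⟨h, hyG⟩
    exact hBG y (BB_restrict hr hD₁ inter_subset_left hy hy1) hyG
  · exact AA_restrict hr (hD₁.inter hG) inter_subset_left hx ⟨AA_subset hx, hAG x hx⟩

theorem BH_trans (hr : IsRank le r) {D G : Set P} (hD : Low le D) (hG : Low le G)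
    (hA : ∀ x ∈ AH le r D, x ∈ G) (hB : ∀ x ∈ BH le r D, x ∉ G) : BH le r D ⊆ BH le r G := by
  rw [BH_eq_dual, BH_eq_dual]
  refine AH_trans hr.dual hD.compl hG.compl ?_ ?_
  · intro x hx
    exact hB x (by rw [BH_eq_dual]; exact hx)
  · intro x hx hx'
    refine hx' (hA x ?_)
    rw [BH_eq_dual] at hx
    simp only [compl_compl] at hx
    exact hx

theorem AH_fg (hr : IsRank le r) (hrefl : ∀ x, le x x) (hfac : FAC le) {G : Set P} :
    ∃ S : Finset P, (∀ x ∈ S, x ∈ AH le r G) ∧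
      ∀ x ∈ AH le r G, ∃ s ∈ S, le x s := by
  classical
  by_contra hcon
  push Not at hcon
  obtain ⟨f, hf1, hf2⟩ := exists_seq_of_forall_finset_exists
    (fun x => x ∈ AH le r G) (fun x y => ¬ le y x) (by
      intro s hs
      obtain ⟨x, hx1, hx2⟩ := hcon s hs
      exact ⟨x, hx1, hx2⟩)
  choose D hD hDG hU hfA using hf1
  let U : Ultrafilter ℕ := Ultrafilter.of atTop
  have hUle : (U : Filter ℕ) ≤ atTop := Ultrafilter.of_le atTop
  have hmono : ∀ᶠ n in (U : Filter ℕ), ∀ᶠ m in (U : Filter ℕ), le (f n) (f m) := by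
    by_contra hc
    refine hfac.ultra U f ?_
    have := Ultrafilter.eventually_not.2 hc
    filter_upwards [this] with n hn
    have h1 := Ultrafilter.eventually_not.2 hn
    have h2 : ∀ᶠ m in (U : Filter ℕ), n < m := hUle (eventually_gt_atTop n)
    filter_upwards [h1, h2] with m h3 h4
    exact ⟨h3, hf2 n m h4⟩
  obtain ⟨D₀, hD₀, hconv⟩ := exists_conv (le := le) U D hD
  have hD₀G : D₀ ⊆ G := by
    intro p hp
    obtain ⟨n, hn⟩ := (hconv p).exists
    exact hDG n (hn.2 hp)
  have hmem : ∀ᶠ n in (U : Filter ℕ), f n ∈ D₀ := by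
    filter_upwards [hmono] with n hn
    obtain ⟨m, hm1, hm2⟩ := (hn.and (hconv (f n))).exists
    exact hm2.1 (hD m hm1 (AA_subset (hfA m)))
  have hc : Conv (U : Filter ℕ) (fun n => D n ∩ D₀) (D₀ ∩ D₀) := hconv.inter (conv_const D₀)
  rw [inter_self] at hc
  have h2 := hr.conv_le (fun m => (hD m).inter hD₀) hD₀ hc
  have hsub : ∀ᶠ n in (U : Filter ℕ), D₀ ⊆ D n := by
    filter_upwards [h2] with n hn
    by_contra hns
    have h3 : InU le r (D n) (D n ∪ D₀) :=
      ⟨fun y hy => Or.inl (AA_subset hy), fun y hy h4 => (hU n).2 y hy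
        (union_subset (hDG n) hD₀G h4)⟩
    have h4 := h3.lt hr (hD n) ((hD n).union hD₀)
      (fun h => hns (by rw [← h]; exact subset_union_right))
    exact absurd hn (not_le.2 (hr.key (hD n) hD₀ h4))
  have hfin := AA_finite (D := D₀) hr hfac
  have hinj : Function.Injective f := by
    intro a b hab
    by_contra hne
    rcases lt_or_gt_of_ne hne with h | h
    · exact hf2 a b h (hab ▸ hrefl _)
    · exact hf2 b a h (hab ▸ hrefl _)
  have hAA : ∀ᶠ n in (U : Filter ℕ), f n ∈ AA le r D₀ := by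
    filter_upwards [hmem, hsub] with n h3 h4
    exact AA_restrict hr hD₀ h4 (hfA n) h3
  have hfin2 : {n | f n ∈ AA le r D₀}.Finite := hfin.preimage hinj.injOn
  have h5 : ∀ᶠ n in (U : Filter ℕ), n ∉ {n | f n ∈ AA le r D₀} := by
    refine hUle ?_
    have := hfin2.compl_mem_cofinite
    rw [Nat.cofinite_eq_atTop] at this
    exact this
  obtain ⟨n, h6, h7⟩ := (hAA.and h5).exists
  exact h7 h6

theorem BH_fg (hr : IsRank le r) (hrefl : ∀ x, le x x) (hfac : FAC le) {G : Set P} :
    ∃ S : Finset P, (∀ x ∈ S, x ∈ BH le r G) ∧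
      ∀ x ∈ BH le r G, ∃ s ∈ S, le s x := by
  obtain ⟨S, h1, h2⟩ := AH_fg (G := Gᶜ) hr.dual hrefl hfac.dual
  refine ⟨S, fun x hx => ?_, fun x hx => ?_⟩
  · rw [BH_eq_dual]; exact h1 x hx
  · rw [BH_eq_dual] at hx; exact h2 x hx

/-- **Transitive canonical selector.** -/
theorem exists_selector (hr : IsRank le r) (hrefl : ∀ x, le x x) (hfac : FAC le) :
    ∃ a b : Set P → Finset P, ∀ D, Low le D →
      (∀ x ∈ a D, x ∈ D) ∧ (∀ x ∈ b D, x ∉ D) ∧
      (∀ G, Low le G → (∀ x ∈ a D, x ∈ G) → (∀ x ∈ b D, x ∉ G) → G ≠ D → r G < r D) ∧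
      (∀ G, Low le G → (∀ x ∈ a D, x ∈ G) → (∀ x ∈ b D, x ∉ G) →
        ∀ H, Low le H → (∀ x ∈ a G, x ∈ H) → (∀ x ∈ b G, x ∉ H) →
          (∀ x ∈ a D, x ∈ H) ∧ (∀ x ∈ b D, x ∉ H)) := by
  classical
  have hA : ∀ D : Set P, ∃ S : Finset P, Low le D → (∀ x ∈ S, x ∈ AH le r D) ∧
      ∀ x ∈ AH le r D, ∃ s ∈ S, le x s := by
    intro D
    obtain ⟨S, hS⟩ := AH_fg (G := D) hr hrefl hfac
    exact ⟨S, fun _ => hS⟩
  have hB : ∀ D : Set P, ∃ S : Finset P, Low le D → (∀ x ∈ S, x ∈ BH le r D) ∧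
      ∀ x ∈ BH le r D, ∃ s ∈ S, le s x := by
    intro D
    obtain ⟨S, hS⟩ := BH_fg (G := D) hr hrefl hfac
    exact ⟨S, fun _ => hS⟩
  choose a ha using hA
  choose b hb using hB
  have keyA : ∀ D, Low le D → ∀ G, Low le G → (∀ x ∈ a D, x ∈ G) → ∀ x ∈ AH le r D, x ∈ G := by
    intro D hD G hG h x hx
    obtain ⟨s, hs, hxs⟩ := (ha D hD).2 x hx
    exact hG hxs (h s hs)
  have keyB : ∀ D, Low le D → ∀ G, Low le G → (∀ x ∈ b D, x ∉ G) → ∀ x ∈ BH le r D, x ∉ G := by
    intro D hD G hG h x hx hxG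
    obtain ⟨s, hs, hxs⟩ := (hb D hD).2 x hx
    exact h s hs (hG hxs hxG)
  refine ⟨a, b, fun D hD => ⟨?_, ?_, ?_, ?_⟩⟩
  · intro x hx
    exact AH_subset ((ha D hD).1 x hx)
  · intro x hx
    exact BH_not_mem ((hb D hD).1 x hx)
  · intro G hG h1 h2 hne
    have h3 := keyA D hD G hG h1
    have h4 := keyB D hD G hG h2
    exact InU.lt hr hD hG ⟨fun x hx => h3 x (AA_subset_AH hD hx),
      fun x hx => h4 x (BB_subset_BH hD hx)⟩ hne
  · intro G hG h1 h2 H hH h3 h4
    have hAG := keyA D hD G hG h1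
    have hBG := keyB D hD G hG h2
    have hAH := keyA G hG H hH h3
    have hBH := keyB G hG H hH h4
    refine ⟨fun x hx => hAH x (AH_trans hr hD hG hAG hBG ((ha D hD).1 x hx)),
      fun x hx => hBH x (BH_trans hr hD hG hAG hBG ((hb D hD).1 x hx))⟩

end

end Pool.Agent.Helper718.CWG
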